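import Pool.Agent.Q231.LS.Lang

/-!
# ET0L is a proper subfamily of the propagating left forbidding E0L languages

There is a propagating left forbidding E0L grammar `G` over a two-letter terminal alphabet whose
language is generated by no ET0L grammar.
-/

namespace Pool.Agent.Results.MP_7f9305_lc.ET0LProper

open Q231.LS

/-- Some language generated by an LF-EP0L grammar over a two-letter alphabet is generated by no
ET0L grammar (over the same or over any other finite alphabet containing the two letters). -/
theorem result : ∃ G : LFE0L AB, G.Propagating ∧ (∀ H : ET0L AB, H.Lang ≠ G.Lang) ∧
    ∀ (A' : Type) [Finite A'] (f : AB → A'), Function.Injective f →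
      ∀ H : ET0L A', H.Lang ≠ (List.map f) '' G.Lang := by
  refine ⟨gram, gram_propagating, ?_, fun A' _ f hf H => main f hf H⟩
  intro H
  have h := main (fun x : AB => x) (fun x y h => h) H
  rwa [List.map_id_fun', Set.image_id] at h

end Pool.Agent.Results.MP_7f9305_lc.ET0LProper
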